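import Pool.Agent.H33.TM4.Weyl

/-!
Project TM4 (MP_b6022c_nt): tools for the near boundary counts: Fejer majorant, sliding blocks,
monotone counting.
-/

set_option maxHeartbeats 4000000

namespace Pool.Agent.H41.TM4

open Finset Pool.Agent.H9.TC Pool.Agent.H20.TM Pool.Agent.H33.TM4

/-- the cubic and higher terms may be dropped at a small cost -/
theorem ee_lip (x y : ℝ) : ‖ee x - ee y‖ ≤ 2 * Real.pi * |x - y| := by
  have h1 : ee x - ee y = ee y * (ee (x - y) - 1) := by
    have : ee x = ee y * ee (x - y) := by rw [← f2_ee_add]; congr 1; ring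
    rw [this]; ring
  rw [h1, norm_mul, f2_norm_ee, one_mul, f2_sin]
  have h2 : |Real.sin (Real.pi * (x - y))| ≤ |Real.pi * (x - y)| := Real.abs_sin_le_abs
  rw [abs_mul, abs_of_pos Real.pi_pos] at h2
  linarith

/-- near boundary points from exponential sums -/
theorem near_cnt (v g N : ℕ) (hg : 2 ≤ g) (hgv : g + 1 ≤ v) (x : ℕ → ℤ) (δ : ℝ) (hδ : 0 ≤ δ)
    (h : ∀ a : ℤ, a ≠ 0 → |a| ≤ 4 ^ g → ‖∑ n ∈ range N, ee ((a : ℝ) * (x n : ℝ) / 2 ^ v)‖ ≤ δ * N) :
    (cnt N (fun n => near v ((2 : ℤ) ^ (v - g)) (x n)) : ℝ) ≤ (5 * (1 / 2) ^ g + 2 * δ) * N := by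
  classical
  obtain ⟨W, hW⟩ : ∃ W : ℕ, W = 2 ^ (v - g + 1) := ⟨_, rfl⟩
  have hv1 : 1 ≤ v := by omega
  have hW1 : 1 ≤ W := by rw [hW]; exact Nat.one_le_two_pow
  have hWv : W ≤ 2 ^ (v - 1) := by rw [hW]; exact Nat.pow_le_pow_right (by norm_num) (by omega)
  obtain ⟨-, f1b, f1c, -, f1e, f1f, f1g⟩ := f1 v W hv1 hW1 hWv
  obtain ⟨f2a, f2b, f2c⟩ := f2 v W hv1 hW1 hWv
  have hWr : (W : ℝ) = 2 ^ v * (2 * (1 / 2) ^ g) := by
    have h1 : (2 : ℝ) ^ v = 2 ^ (v - g) * 2 ^ g := by rw [← pow_add]; congr 1; omega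
    rw [hW, h1]
    push_cast
    rw [pow_succ]
    have : (2 : ℝ) ^ g * (1 / 2) ^ g = 1 := by rw [← mul_pow]; norm_num
    linear_combination (-2 * (2 : ℝ) ^ (v - g)) * this
  -- majorant
  have hmaj : (cnt N (fun n => near v ((2 : ℤ) ^ (v - g)) (x n)) : ℝ) ≤
      2 * ∑ n ∈ range N, Fj v W (x n) := by
    unfold cnt
    rw [card_eq_sum_ones, Nat.cast_sum, sum_filter, mul_sum]
    refine sum_le_sum fun n _ => ?_
    split_ifs with hn
    · have h2v : (2 : ℤ) ^ v = 2 ^ (v - g) * 2 ^ g := by rw [← pow_add]; congr 1; omega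
      have hp : (0 : ℤ) < 2 ^ (v - g) := by positivity
      have hmod0 := Int.emod_nonneg (x n) (b := (2 : ℤ) ^ v) (by positivity)
      have hmod1 := Int.emod_lt_of_pos (x n) (b := (2 : ℤ) ^ v) (by positivity)
      have hWz : (W : ℤ) = 2 * 2 ^ (v - g) := by rw [hW]; push_cast; ring
      have key : 1 / 2 ≤ Fj v W (x n) := by
        rcases hn with hn | hn
        · refine f1e (x n) (x n % 2 ^ v) ?_ ?_
          · rw [abs_of_nonneg hmod0, hWz]; linarith
          · exact Int.dvd_self_sub_emod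
        · refine f1e (x n) (x n % 2 ^ v - 2 ^ v) ?_ ?_
          · rw [abs_of_nonpos (by linarith), hWz]; linarith
          · have h3 : x n - (x n % 2 ^ v - 2 ^ v) = (x n - x n % 2 ^ v) + 2 ^ v := by ring
            rw [h3]
            exact dvd_add Int.dvd_self_sub_emod dvd_rfl
      push_cast
      linarith
    · have := f1b (x n)
      simpa using this
  -- expansion
  have hexp : ((∑ n ∈ range N, Fj v W (x n) : ℝ) : ℂ) =
      ∑ a ∈ reps v, (Fh v W a : ℂ) * ∑ n ∈ range N, ee ((a : ℝ) * (x n : ℝ) / 2 ^ v) := by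
    rw [Complex.ofReal_sum, sum_congr rfl fun n _ => f2a (x n), sum_comm]
    refine sum_congr rfl fun a _ => ?_
    rw [mul_sum]
  have hnorm : ∑ n ∈ range N, Fj v W (x n) ≤
      ∑ a ∈ reps v, Fh v W a * ‖∑ n ∈ range N, ee ((a : ℝ) * (x n : ℝ) / 2 ^ v)‖ := by
    have h0 : 0 ≤ ∑ n ∈ range N, Fj v W (x n) := sum_nonneg fun n _ => f1b _
    have h1 : ∑ n ∈ range N, Fj v W (x n) = ‖((∑ n ∈ range N, Fj v W (x n) : ℝ) : ℂ)‖ := by
      rw [Complex.norm_real, Real.norm_eq_abs, abs_of_nonneg h0]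
    rw [h1, hexp]
    refine (norm_sum_le _ _).trans (sum_le_sum fun a _ => ?_)
    rw [norm_mul, Complex.norm_real, Real.norm_eq_abs, abs_of_nonneg (f1f a)]
  have htriv : ∀ a : ℤ, ‖∑ n ∈ range N, ee ((a : ℝ) * (x n : ℝ) / 2 ^ v)‖ ≤ N := by
    intro a
    refine (norm_sum_le _ _).trans ?_
    rw [sum_congr rfl fun n _ => f2_norm_ee _]
    simp
  have hterm : ∀ a ∈ reps v, Fh v W a * ‖∑ n ∈ range N, ee ((a : ℝ) * (x n : ℝ) / 2 ^ v)‖ ≤
      (if a = 0 then Fh v W 0 * N else 0) + Fh v W a * (δ * N) +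
        (if ((4 ^ g : ℕ) : ℤ) < |a| then Fh v W a * N else 0) := by
    intro a _
    have hN : (0 : ℝ) ≤ N := Nat.cast_nonneg _
    have hF := f1f a
    have t1 : 0 ≤ Fh v W a * (δ * N) := by positivity
    have t2 : 0 ≤ Fh v W a * (N : ℝ) := by positivity
    by_cases h0 : a = 0
    · rw [if_pos h0]
      have h2 := mul_le_mul_of_nonneg_left (htriv a) hF
      rw [h0] at h2 ⊢
      have h4 := f1f 0
      have h5 : 0 ≤ Fh v W 0 * (δ * N) := by positivity
      split_ifs with h3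
      · have : 0 ≤ Fh v W 0 * (N : ℝ) := by positivity
        linarith
      · linarith
    · rw [if_neg h0]
      by_cases h1 : ((4 ^ g : ℕ) : ℤ) < |a|
      · rw [if_pos h1]
        have := mul_le_mul_of_nonneg_left (htriv a) hF
        linarith
      · rw [if_neg h1]
        push Not at h1
        have := mul_le_mul_of_nonneg_left (h a h0 (by push_cast at h1; exact h1)) hF
        linarith
  have hsum := hnorm.trans (sum_le_sum hterm)
  rw [sum_add_distrib, sum_add_distrib] at hsum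
  have hs2 : ∑ a ∈ reps v, Fh v W a * (δ * N) = δ * N := by rw [← sum_mul, f2b, one_mul]
  have hs3 : ∑ a ∈ reps v, (if ((4 ^ g : ℕ) : ℤ) < |a| then Fh v W a * (N : ℝ) else 0) =
      (∑ a ∈ (reps v).filter (fun a => ((4 ^ g : ℕ) : ℤ) < |a|), Fh v W a) * N := by
    rw [← sum_filter, ← sum_mul]
  rw [hs2, hs3] at hsum
  have hz : ∑ a ∈ reps v, (if a = 0 then Fh v W 0 * (N : ℝ) else 0) ≤ Fh v W 0 * N := by
    rw [sum_ite_eq']
    split_ifs
    · exact le_refl _
    · rw [f1g]; positivity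
  have htail := f2c (4 ^ g) (Nat.one_le_pow _ _ (by norm_num))
  have htail2 : (2 : ℝ) ^ v / (2 * W * ((4 ^ g : ℕ) : ℝ)) ≤ 1 / 2 * (1 / 2) ^ g := by
    rw [hWr, div_le_iff₀ (by positivity)]
    push_cast
    have h4 : (4 : ℝ) ^ g = 2 ^ g * 2 ^ g := by rw [← mul_pow]; norm_num
    have h5 : (2 : ℝ) ^ g * (1 / 2) ^ g = 1 := by rw [← mul_pow]; norm_num
    have h6 : 1 / 2 * (1 / 2 : ℝ) ^ g * (2 * (2 ^ v * (2 * (1 / 2) ^ g)) * 4 ^ g) =
        2 * 2 ^ v * ((2 ^ g * (1 / 2) ^ g) * (2 ^ g * (1 / 2) ^ g)) := by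
      rw [h4]; ring
    rw [h6, h5]
    have : (0 : ℝ) < 2 ^ v := by positivity
    linarith
  have h0W : Fh v W 0 = 2 * (1 / 2) ^ g := by
    rw [f1g, hWr]
    field_simp
  have hN : (0 : ℝ) ≤ N := Nat.cast_nonneg _
  have h9 := mul_le_mul_of_nonneg_right (htail.trans htail2) hN
  rw [h0W] at hz hsum
  nlinarith [hmaj, hsum, hz, h9]

/-- sliding blocks: small sums except for a few starting points -/
theorem local_avg (F : ℕ → ℂ) (hF : ∀ n, ‖F n‖ ≤ 1) (N X : ℕ) (hX : 0 < X) (δ : ℝ) (hδ : 0 ≤ δ)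
    (Bad : ℕ → Prop)
    (h : ∀ n < N, ¬ Bad n → ‖∑ y ∈ range X, F (n + y)‖ ≤ δ * X) :
    ‖∑ n ∈ range N, F n‖ ≤ δ * N + cnt N Bad + X := by
  classical
  have h1 := shift_avg F hF N X
  have hXr : (0 : ℝ) < X := by exact_mod_cast hX
  have h2 : ∑ n ∈ range N, ‖∑ y ∈ range X, F (n + y)‖ ≤
      ∑ n ∈ range N, (δ * X + if Bad n then (X : ℝ) else 0) := by
    refine sum_le_sum fun n hn => ?_
    split_ifs with hb
    · have : ‖∑ y ∈ range X, F (n + y)‖ ≤ X := by
        refine (norm_sum_le _ _).trans ((sum_le_sum fun y _ => hF (n + y)).trans ?_)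
        simp
      have : 0 ≤ δ * X := by positivity
      linarith
    · have := h n (mem_range.1 hn) hb
      linarith
  rw [sum_add_distrib, sum_const, card_range, nsmul_eq_mul, ← sum_filter, sum_const,
    nsmul_eq_mul] at h2
  have h3 : (((range N).filter Bad).card : ℝ) = cnt N Bad := by
    unfold cnt
    congr
  rw [h3] at h2
  have h4 : (X : ℝ) * ‖∑ n ∈ range N, F n‖ ≤ X * (δ * N + cnt N Bad + X) := by
    nlinarith
  exact le_of_mul_le_mul_left h4 hXr

/-- monotone counting -/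
theorem mono_cnt (f : ℕ → ℝ) (N0 N : ℕ) (δ1 δ2 η : ℝ) (h1 : 0 < δ1) (h2 : 0 ≤ δ2) (hη : 0 ≤ η)
    (h : ∀ n, N0 ≤ n → n < N → δ1 ≤ f (n + 1) - f n ∧ f (n + 1) - f n ≤ δ2) :
    (cnt N (fun n => nn (f n) ≤ η) : ℝ) ≤ N0 + (δ2 * N + 2) * (2 * η / δ1 + 1) := by
  classical
  -- growth between two points
  have hgr : ∀ d n : ℕ, N0 ≤ n → n + d ≤ N →
      δ1 * d ≤ f (n + d) - f n ∧ f (n + d) - f n ≤ δ2 * d := by
    intro d
    induction d with
    | zero => intro n _ _; simp
    | succ d ih =>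
      intro n hn hd
      obtain ⟨a1, a2⟩ := ih n hn (by omega)
      obtain ⟨b1, b2⟩ := h (n + d) (by omega) (by omega)
      rw [← add_assoc]
      push_cast
      constructor <;> linarith
  obtain ⟨B, hB⟩ : ∃ B : Finset ℕ, B = (Ico N0 N).filter (fun n => nn (f n) ≤ η) := ⟨_, rfl⟩
  have hcnt : (cnt N (fun n => nn (f n) ≤ η)) ≤ N0 + B.card := by
    unfold cnt
    have : (range N).filter (fun n => nn (f n) ≤ η) ⊆ range N0 ∪ B := by
      intro n hn
      rw [mem_filter, mem_range] at hn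
      rw [mem_union, hB, mem_filter, mem_Ico, mem_range]
      by_cases h3 : n < N0
      · exact Or.inl h3
      · exact Or.inr ⟨⟨by omega, hn.1⟩, hn.2⟩
    refine (card_le_card this).trans ((card_union_le _ _).trans ?_)
    rw [card_range]
  have hfib : ∀ z ∈ B.image (fun n => round (f n)),
      (B.filter (fun n => round (f n) = z)).card ≤ ⌊2 * η / δ1⌋₊ + 1 := by
    intro z _
    by_cases he : (B.filter (fun n => round (f n) = z)).Nonempty
    · obtain ⟨m, hm⟩ : ∃ m, m = (B.filter (fun n => round (f n) = z)).min' he := ⟨_, rfl⟩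
      have hmm : m ∈ B.filter (fun n => round (f n) = z) := by rw [hm]; exact min'_mem _ _
      have hsub : B.filter (fun n => round (f n) = z) ⊆ Icc m (m + ⌊2 * η / δ1⌋₊) := by
        intro n hn
        have hmn : m ≤ n := by rw [hm]; exact min'_le _ _ hn
        rw [mem_Icc]
        refine ⟨hmn, ?_⟩
        rw [mem_filter, hB, mem_filter, mem_Ico] at hn hmm
        obtain ⟨d, rfl⟩ := Nat.exists_eq_add_of_le hmn
        obtain ⟨a1, -⟩ := hgr d m hmm.1.1.1 (by omega)
        have e1 := hn.1.2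
        have e2 := hmm.1.2
        unfold nn at e1 e2
        rw [hn.2] at e1
        rw [hmm.2] at e2
        rw [abs_le] at e1 e2
        have h5 : (d : ℝ) ≤ 2 * η / δ1 := by
          rw [le_div_iff₀ h1]
          nlinarith
        have := Nat.le_floor h5
        omega
      refine (card_le_card hsub).trans ?_
      rw [Nat.card_Icc]
      omega
    · rw [not_nonempty_iff_eq_empty] at he
      rw [he]
      simp
  have hcard := card_le_mul_card_image (f := fun n => round (f n)) B _ hfib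
  have himg : ((B.image (fun n => round (f n))).card : ℝ) ≤ δ2 * N + 2 := by
    by_cases hN : N0 < N
    · have hsub : B.image (fun n => round (f n)) ⊆
          Icc ⌈f N0 - 1 / 2⌉ ⌊f N0 + δ2 * N + 1 / 2⌋ := by
        intro z hz
        rw [mem_image] at hz
        obtain ⟨n, hn, rfl⟩ := hz
        rw [hB, mem_filter, mem_Ico] at hn
        obtain ⟨d, rfl⟩ := Nat.exists_eq_add_of_le hn.1.1
        obtain ⟨a1, a2⟩ := hgr d N0 le_rfl (by omega)
        have e1 := abs_le.1 (abs_sub_round (f (N0 + d)))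
        have hd : (d : ℝ) ≤ N := by exact_mod_cast (by omega : d ≤ N)
        rw [mem_Icc, Int.ceil_le, Int.le_floor]
        constructor
        · have : 0 ≤ δ1 * d := by positivity
          linarith [e1.2]
        · have : δ2 * d ≤ δ2 * N := mul_le_mul_of_nonneg_left hd h2
          linarith [e1.1]
      have h6 := card_le_card hsub
      rw [Int.card_Icc] at h6
      have h7 : ((⌊f N0 + δ2 * N + 1 / 2⌋ + 1 - ⌈f N0 - 1 / 2⌉).toNat : ℝ) ≤ δ2 * N + 2 := by
        have h8 : (((⌊f N0 + δ2 * N + 1 / 2⌋ + 1 - ⌈f N0 - 1 / 2⌉).toNat : ℤ) : ℝ) =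
            ((max (⌊f N0 + δ2 * N + 1 / 2⌋ + 1 - ⌈f N0 - 1 / 2⌉) 0 : ℤ) : ℝ) := by
          rw [Int.toNat_eq_max]
        rw [Int.cast_natCast] at h8
        rw [h8]
        push_cast
        apply max_le
        · have := Int.floor_le (f N0 + δ2 * N + 1 / 2)
          have := Int.le_ceil (f N0 - 1 / 2)
          linarith
        · positivity
      exact (by exact_mod_cast h6 : ((B.image (fun n => round (f n))).card : ℝ) ≤ _).trans h7
    · have : B = ∅ := by
        rw [hB, Ico_eq_empty (by omega), filter_empty]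
      rw [this, image_empty, card_empty]
      push_cast
      positivity
  have hfl : ((⌊2 * η / δ1⌋₊ : ℕ) : ℝ) ≤ 2 * η / δ1 := Nat.floor_le (by positivity)
  have h10 : (cnt N (fun n => nn (f n) ≤ η) : ℝ) ≤
      N0 + (⌊2 * η / δ1⌋₊ + 1) * ((B.image (fun n => round (f n))).card : ℝ) := by
    exact_mod_cast hcnt.trans (by omega)
  refine h10.trans ?_
  have h11 : ((⌊2 * η / δ1⌋₊ : ℝ) + 1) * ((B.image (fun n => round (f n))).card : ℝ) ≤
      (2 * η / δ1 + 1) * (δ2 * N + 2) :=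
    mul_le_mul (by linarith) himg (by positivity) (by positivity)
  linarith

end Pool.Agent.H41.TM4
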